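import Pool.Agent.L0h2.P.TOW3
import Pool.Agent.L0h1.EV.Crm
import Pool.Agent.L0h75.EV.UniE

/-!
# The conjecture modulo 2 for a fixed elliptic curve over all the number fields inside an infinite field

`E_n : y² = x³ - 35 n² x - 98 n³` is the quadratic twist by `n` of `X_0(49) : y² + x y = x³ - x² - 2 x - 1`,
and `D₀` is any squarefree number prime to `7` for which `E_{D₀}(ℚ)` is finite and `Ш(E_{D₀}/ℚ)[2] = 0`
(`TrivialTwo D₀`), for instance `D₀ = 1`, the curve `X_0(49)` itself.

For every `q ≥ 1` there are infinitely many squarefree, pairwise coprime numbers `e_0 < e_1 < ...`, all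
congruent to `1` modulo `q`, such that Q1 of the problem, in the exact form of the frozen statement
`S16693`, is true for `E = E_{D₀}` and for `E = E_{-7 D₀}` over every number field `K` which can be embedded
into the infinite field `F_∞ = ℚ(√-7, √e_0, √e_1, ...)`: the order of vanishing of `L(E/K, s)` at `s = 1` and
the rank of `E(K)` are both zero. All points of `E` over `F_∞` have finite order. So there is one fixed
elliptic curve for which Q1 is true over number fields of arbitrarily large degree, namely in all the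
finite layers of an extension of `ℚ` whose Galois group is an infinite product of groups of order two.

Proof. The numbers `e_i` are found one after the other: the `2^k` numbers `D₀ e_S`, `e_S` a product of some of
the first `k` numbers, are pairwise different, and by the joint law of any number of quadratic twists
(`Results/MP_696deb_nt/JointLawNaturalDensity.lean`, `Pool/Agent/L0h2/P`; `KEYG` by helper74, `FEWJ` by helper86,
`DENJ` by helper1) the `D` in a given residue class for which all the `2^k` twists by `D D₀ e_S` have a finite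
group of rational points and `Ш[2] = 0` have the positive natural density `(1/2) c^(2^k)`,
`c = ∏_{i ≥ 0} (1 - 2^{-(2i+1)})`, relative to the squarefree numbers prime to `7` in the class. The passage
from the twists over `ℚ` to the multiquadratic fields is `Pool/Agent/L0h74/NF` (helper74), the fields are
treated in `Pool/Agent/L0h2/P/{MQ,MQF,TOW,TOW2,TOW3}`, and the facts on a single twist are those of
`Results/MP_696deb_nt/AllTwistsX49ExactProportion.lean` (helpers 1, 4, 23, 61, 74, 75, 98).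
-/

set_option autoImplicit false

open scoped Classical
open NumberField IntermediateField

namespace Pool.Agent.Results.MP_413b36_nt.InfiniteTowerX49

/-- The quadratic twist by `n` of `X_0(49)`, over `K`: the curve `y² = x³ - 35 n² x - 98 n³`. -/
def curve (K : Type) [Field K] (n : ℤ) : WeierstrassCurve K :=
  { a₁ := 0, a₂ := 0, a₃ := 0, a₄ := -35 * (n : K) ^ 2, a₆ := -98 * (n : K) ^ 3 }

/-! ### Q1 in the form of the frozen statement -/

/-- `M P` is an equation of `E` over the integers which is minimal at the prime ideal `P`, for all `P`. -/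
def IsMinimal {K : Type} [Field K] [NumberField K] (E : WeierstrassCurve K)
    (M : {P : Ideal (𝓞 K) // P.IsPrime ∧ P ≠ ⊥} → WeierstrassCurve (𝓞 K)) : Prop :=
  ∀ P, (∃ C : WeierstrassCurve.VariableChange K, C • E = (M P).map (algebraMap (𝓞 K) K)) ∧
      ∀ W : WeierstrassCurve (𝓞 K),
        (∃ C : WeierstrassCurve.VariableChange K, C • E = W.map (algebraMap (𝓞 K) K)) →
        ∀ n : ℕ, (M P).Δ ∈ P.1 ^ n → W.Δ ∈ P.1 ^ n

/-- The Euler factor of the Hasse–Weil `L`-function at the prime ideal `P`. -/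
noncomputable def eulerFactor {K : Type} [Field K] [NumberField K]
    (M : {P : Ideal (𝓞 K) // P.IsPrime ∧ P ≠ ⊥} → WeierstrassCurve (𝓞 K)) (s : ℂ)
    (P : {P : Ideal (𝓞 K) // P.IsPrime ∧ P ≠ ⊥}) : ℂ :=
  (1 - ((Nat.card (𝓞 K ⧸ P.1) : ℂ)
               - (Nat.card {xy : (𝓞 K ⧸ P.1) × (𝓞 K ⧸ P.1) //
                   ((M P).map (Ideal.Quotient.mk P.1)).toAffine.Equation xy.1 xy.2} : ℂ))
             * (Nat.card (𝓞 K ⧸ P.1) : ℂ) ^ (-s)
           + (if (M P).Δ ∈ P.1 then 0 else (Nat.card (𝓞 K ⧸ P.1) : ℂ) ^ (1 - 2 * s)))⁻¹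

/-- Q1 for the pair `(K, E)` (with all the terms of the frozen statement `S16693`), with the additional
information that the order and the rank are zero: all the points of `E(K)` have finite order; there are
families of minimal equations; for each of them, the Hasse–Weil `L`-function, which converges for
`Re s > 3/2`, has an analytic continuation to a connected open set with `Re s > 3/2` and `s = 1`, and each
such continuation is nonzero at `s = 1`, so that the order and the rank have the same parity. -/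
def OrderRankZero (K : Type) [Field K] [NumberField K] (E : WeierstrassCurve K) : Prop :=
  (∀ P : E.toAffine.Point, IsOfFinAddOrder P) ∧ Module.finrank ℤ E.toAffine.Point = 0 ∧
  (∃ M : {P : Ideal (𝓞 K) // P.IsPrime ∧ P ≠ ⊥} → WeierstrassCurve (𝓞 K), IsMinimal E M) ∧
  ∀ M : {P : Ideal (𝓞 K) // P.IsPrime ∧ P ≠ ⊥} → WeierstrassCurve (𝓞 K), IsMinimal E M →
    (∃ (U : Set ℂ) (f : ℂ → ℂ), IsOpen U ∧ IsConnected U ∧ (1 : ℂ) ∈ U ∧
      {s : ℂ | 3 / 2 < s.re} ⊆ U ∧ AnalyticOnNhd ℂ f U ∧
      ∀ s : ℂ, 3 / 2 < s.re → HasProd (fun P => eulerFactor M s P) (f s)) ∧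
    ∀ (U : Set ℂ) (f : ℂ → ℂ), IsOpen U → IsConnected U → (1 : ℂ) ∈ U →
      {s : ℂ | 3 / 2 < s.re} ⊆ U → AnalyticOnNhd ℂ f U →
      (∀ s : ℂ, 3 / 2 < s.re → f s = ∏' P, eulerFactor M s P) →
      analyticOrderAt f 1 = 0 ∧ Even (analyticOrderNatAt f 1 + Module.finrank ℤ E.toAffine.Point)

/-! ### The twists and the infinite field -/

/-- `D` is squarefree (so `D ≠ 0`) and prime to `7`. -/
def Adm (D : ℕ) : Prop := Squarefree D ∧ ¬ 7 ∣ D

/-- The quadratic twist over `ℚ` by the squarefree number `D > 0` of `X_0(49)`, with an integral equation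
which is minimal. -/
def minimalCurve (D : ℕ) : WeierstrassCurve ℚ :=
  if D % 4 = 1 then
    { a₁ := 1, a₂ := -(3 * (D : ℚ) + 1) / 4, a₃ := 0, a₄ := -2 * (D : ℚ) ^ 2, a₆ := -(D : ℚ) ^ 3 }
  else { a₁ := 0, a₂ := 0, a₃ := 0, a₄ := -35 * (D : ℚ) ^ 2, a₆ := -98 * (D : ℚ) ^ 3 }

/-- `E_D(ℚ)` is finite and `Ш(E_D/ℚ)[2] = 0`. -/
def TrivialTwo (D : ℕ) : Prop :=
  Finite (minimalCurve D).toAffine.Point ∧
    ∀ x : Pool.Agent.TH841.NF.D.Sha (minimalCurve D), x + x = 0 → x = 0

/-- The infinite field `ℚ(√-7, √e_0, √e_1, ...)`. -/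
noncomputable def InfField (e : ℕ → ℕ) : IntermediateField ℚ (AlgebraicClosure ℚ) :=
  adjoin ℚ {x : AlgebraicClosure ℚ | x ^ 2 = -7 ∨ ∃ i, x ^ 2 = (e i : AlgebraicClosure ℚ)}

/-- All the points of `E` over `K` have finite order. -/
def AllTorsion (K : Type) [Field K] (E : WeierstrassCurve K) : Prop :=
  ∀ P : E.toAffine.Point, IsOfFinAddOrder P

/-! ### The proof -/

lemma curve_eq (K : Type) [Field K] (d : ℤ) :
    curve K d = Pool.Agent.L0h74.NF.Sw K (-35 * d ^ 2) (-98 * d ^ 3) := by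
  unfold curve Pool.Agent.L0h74.NF.Sw
  push_cast
  rfl

lemma conv {K : Type} [Field K] [NumberField K] {d : ℤ}
    (h : Pool.Agent.L0h74.NF.OrdRank (Pool.Agent.L0h74.NF.Sw K (-35 * d ^ 2) (-98 * d ^ 3)) ∧
      ∀ P : (Pool.Agent.L0h74.NF.Sw K (-35 * d ^ 2) (-98 * d ^ 3)).toAffine.Point,
        IsOfFinAddOrder P) :
    OrderRankZero K (curve K d) := by
  rw [curve_eq]
  obtain ⟨⟨h1, h2, h3⟩, h0⟩ := h
  refine ⟨h0, h1, h2, fun M hM => ?_⟩
  obtain ⟨h4, h5⟩ := h3 M hM
  refine ⟨h4, fun U f a1 a2 a3 a4 a5 a6 => ?_⟩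
  have h6 := h5 U f a1 a2 a3 a4 a5 a6
  refine ⟨h6, ?_⟩
  rw [h1, analyticOrderNatAt, h6]
  exact Even.zero

theorem one : TrivialTwo 1 := by
  have h := Pool.Agent.L0h1.EV.tt_mU Pool.Agent.L0h75.EV.t_U1 Pool.Agent.L0h75.EV.t_UE (D := 1)
    squarefree_one (by norm_num)
  refine h.2 ?_
  have he : IsEmpty (Pool.Agent.L0h1.EV.gens 1) := by
    refine ⟨fun x => ?_⟩
    obtain ⟨x, -, hp, h | h | h | h⟩ := x
    · refine hp.not_isUnit (isUnit_of_dvd_one ?_)
      have h1 := h.1
      rwa [Nat.cast_one] at h1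
    · exact absurd h.1 (by norm_num)
    · exact absurd h.1 (by norm_num)
    · exact absurd h.1 (by norm_num)
  rw [Matrix.det_isEmpty]
  exact one_ne_zero

/-- **Q1 for `X_0(49)` and its good twists over all the number fields in an infinite field.** -/
theorem result :
    TrivialTwo 1 ∧
    ∀ D₀ : ℕ, Adm D₀ → TrivialTwo D₀ → ∀ q : ℕ, 0 < q →
      ∃ e : ℕ → ℕ, StrictMono e ∧
        (∀ i, Adm (e i) ∧ 1 < e i ∧ e i % q = 1 % q ∧ Nat.Coprime (e i) D₀) ∧
        (∀ i j, i ≠ j → Nat.Coprime (e i) (e j)) ∧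
        ∀ n : ℤ, n = D₀ ∨ n = -7 * D₀ →
          (∀ (K : Type) [Field K] [NumberField K], Nonempty (K →+* InfField e) →
            OrderRankZero K (curve K n)) ∧
          AllTorsion (InfField e) (curve (InfField e) n) := by
  refine ⟨one, fun D₀ hD₀ ht q hq => ?_⟩
  obtain ⟨e, h1, h2, h3, h4⟩ := Pool.Agent.L0h2.P.TOW.seq hD₀ hq ht
  have key : ∀ n : ℤ, n = D₀ ∨ n = -7 * D₀ → ∀ (K : Type) [Field K] [NumberField K],
      (K →+* InfField e) → Pool.Agent.L0h74.NF.OrdRank
        (Pool.Agent.L0h74.NF.Sw K (-35 * n ^ 2) (-98 * n ^ 3)) ∧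
      ∀ P : (Pool.Agent.L0h74.NF.Sw K (-35 * n ^ 2) (-98 * n ^ 3)).toAffine.Point,
        IsOfFinAddOrder P := fun n hn K _ _ f =>
    Pool.Agent.L0h2.P.TOW.inf_layer hD₀ (fun i => (h2 i).1) (fun i => (h2 i).2.1)
      (fun i => (h2 i).2.2.2) h3 h4 ((InfField e).val.toRingHom.comp f) (fun y => (f y).2) hn
  refine ⟨e, h1, h2, h3, fun n hn => ⟨fun K _ _ hK => ?_, ?_⟩⟩
  · obtain ⟨f⟩ := hK
    exact conv (key n hn K f)
  · have ha := Pool.Agent.L0h2.P.TOW.alg_of (Ω := InfField e) (InfField e).val.toRingHom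
    rw [curve_eq]
    exact Pool.Agent.L0h2.P.TOW.tors_alg (Ω := InfField e) (-35 * n ^ 2) (-98 * n ^ 3)
      (fun K _ _ f => (key n hn K f).2)

end Pool.Agent.Results.MP_413b36_nt.InfiniteTowerX49
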