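import Mathlib
import Pool.Agent.L0h2.N.Num
import Pool.Agent.Y703.CX.Rank
import Pool.Agent.R413.SQ.Cor

/-!
# The rank form for the cubic twist and for any number of quadratic twists at once: the joint law

`D` runs over the squarefree numbers all whose prime factors are `1` modulo `4` (`Adm`), or over the
subclass `Class` of those with exactly one prime factor `2` modulo `3` and not `±1` modulo `9`;
`M_1, ..., M_t` are any fixed pairwise different admissible numbers. The curves are the cubic twist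
`x³ + y³ = D`, that is `y² = x³ - 432 D²`, and the `t` quadratic twists
`A_{D M_i} : y² = x³ - 35 (D M_i)² x - 98 (D M_i)³` of `X_0(49)`, where `D M_i` stands for the squarefree
part `tw D M_i = D M_i / gcd(D, M_i)²` of the product. If the curve `E_D : y² + D y = x³`,
`3`-isogenous to `x³ + y³ = D`, has finitely many rational points and `Ш[3^∞] = 0` (`TrivialThree`), then
order and rank are `0` for `x³ + y³ = D`; if a twist `A_D` has finitely many rational points and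
`Ш[2] = 0` (`TrivialTwo`), then order and rank are `0` for `A_D`.

The `t + 1` events `TrivialThree D`, `TrivialTwo (D M_1)`, ..., `TrivialTwo (D M_t)` are asymptotically
independent: each of the `2^(t+1)` patterns has exactly the proportion
`(c₃ or 1 - c₃) ∏ (c₂ or 1 - c₂)` in `Class`, with `c₃ = ∏_{i ≥ 1} (1 - 3^{-i}) = 0.5601...`,
`c₂ = ∏_{i ≥ 0} (1 - 2^{-(2i+1)}) = 0.4194...`; for the quadratic twists alone the same holds in the
larger class `Adm`. No multiplicative independence of the `M_i` is needed, and `M_i` and `D` may have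
common factors. In particular the rank form holds with order and rank `0` for all the `t` quadratic twists
at once for the proportion `c₂^t` of the admissible `D` at least, and for one of them for the proportion
`1 - (1 - c₂)^t` at least, which is as near to `1` as one likes.

The quadratic part rests on a Markov chain for the coranks of `t` symmetric matrices over `F_2` with the
same random entries off the diagonal and different diagonals (`Pool/Agent/L0h2/M`), the counting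
is in `Pool/Agent/L0h2/{J,K,M,N}`; the facts about a single curve are taken from the starting files
(`Pool/Agent/Y703/CX`, `Pool/Agent/R413/SQ`).
-/

set_option autoImplicit false

open scoped Classical
open Filter Topology

namespace Pool.Agent.Results.MP_696deb_nt.JointLawManyTwists

/-- the conclusion of the frozen statement for `y² = x³ + a x + b`, together with the fact that the
order of vanishing and the rank are both `0` -/
def BSDRankZero (a b : ℤ) : Prop :=
  4 * a ^ 3 + 27 * b ^ 2 ≠ 0 ∧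
    ∃ F : ℂ → ℂ, Differentiable ℂ F ∧
      (∀ s : ℂ, (3 : ℝ) / 2 < s.re →
        HasProd
          (fun p : ℕ => open Classical in
            if p.Prime ∧ ¬ ((p : ℤ) ∣ 2 * (-4 * a ^ 3 - 27 * b ^ 2)) then
              (1 - ((p : ℂ) - (Nat.card {q : ZMod p × ZMod p //
                  q.2 ^ 2 = q.1 ^ 3 + (a : ZMod p) * q.1 + (b : ZMod p)} : ℂ))
                  * (p : ℂ) ^ (-s) + (p : ℂ) ^ (1 - 2 * s))⁻¹
            else 1)
          (F s)) ∧
      analyticOrderAt F 1 =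
        ((Module.finrank ℤ
          (WeierstrassCurve.Affine.Point
            (WeierstrassCurve.toAffine
              ({ a₁ := 0, a₂ := 0, a₃ := 0, a₄ := (a : ℚ), a₆ := (b : ℚ) } :
                WeierstrassCurve ℚ))) : ℕ) : ℕ∞) ∧
      Module.finrank ℤ
        (WeierstrassCurve.Affine.Point
          (WeierstrassCurve.toAffine
            ({ a₁ := 0, a₂ := 0, a₃ := 0, a₄ := (a : ℚ), a₆ := (b : ℚ) } :
              WeierstrassCurve ℚ))) = 0

/-- `D` is squarefree and all its prime factors are `1` modulo `4` -/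
def Adm (D : ℕ) : Prop := Squarefree D ∧ ∀ p : ℕ, p.Prime → p ∣ D → p % 4 = 1

/-- the smaller class: `D` squarefree, not `±1` modulo `9`, all prime factors `≡ 1` modulo `4`, exactly one
prime factor congruent to `2` modulo `3` -/
def Class (D : ℕ) : Prop :=
  Squarefree D ∧ D % 9 ≠ 1 ∧ D % 9 ≠ 8 ∧ (∀ p : ℕ, p.Prime → p ∣ D → p % 4 = 1) ∧
    ∃ q : ℕ, q.Prime ∧ q % 3 = 2 ∧ q ∣ D ∧ ∀ p : ℕ, p.Prime → p ∣ D → p ≠ q → p % 3 = 1

/-- the curve `y² + D y = x³` over `ℚ` -/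
def E (D : ℕ) : WeierstrassCurve ℚ := { a₁ := 0, a₂ := 0, a₃ := (D : ℚ), a₄ := 0, a₆ := 0 }

/-- the curve `y² = x³ - 35 D² x - 98 D³` over `ℚ`, the quadratic twist by `D` of `X_0(49)` -/
def A (D : ℕ) : WeierstrassCurve ℚ :=
  { a₁ := 0, a₂ := 0, a₃ := 0, a₄ := -35 * (D : ℚ) ^ 2, a₆ := -98 * (D : ℚ) ^ 3 }

/-- `E_D(ℚ)` is finite and `Ш(E_D/ℚ)[3^∞] = 0` -/
def TrivialThree (D : ℕ) : Prop :=
  Finite (E D).toAffine.Point ∧
    ∀ (n : ℕ) (x : Pool.Agent.TH841.SH.D.Sha (E D)), 3 ^ n • x = 0 → x = 0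

/-- `A_D(ℚ)` is finite and `Ш(A_D/ℚ)[2] = 0` -/
def TrivialTwo (D : ℕ) : Prop :=
  Finite (A D).toAffine.Point ∧
    ∀ x : Pool.Agent.TH841.NF.D.Sha (A D), 2 • x = 0 → x = 0

/-- the squarefree part of the product of two squarefree numbers -/
def tw (D M : ℕ) : ℕ := D * M / (Nat.gcd D M) ^ 2

/-- the number of the `D ≤ X` of the class `C` with the property `Q` -/
noncomputable def num (C Q : ℕ → Prop) (X : ℕ) : ℕ :=
  ((Finset.Icc 1 X).filter fun D => C D ∧ Q D).card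

/-- the constant `0.5601...` -/
noncomputable def c₃ : ℝ := ∏' i : ℕ, (1 - (1 / 3 : ℝ) ^ (i + 1))

/-- the constant `0.4194...` -/
noncomputable def c₂ : ℝ := ∏' i : ℕ, (1 - (1 / 2 : ℝ) ^ (2 * i + 1))

section proof

open Pool.Agent.R413.SQ
open Pool.Agent.Results.MP_4a9ea6_nt.TwoPartTwistsX49 (mat)

theorem E_eq (D : ℕ) : Pool.Agent.Y703.CT.EQ (Pool.Agent.Y703.CT.WD D) = E D := by
  unfold Pool.Agent.Y703.CT.EQ Pool.Agent.Y703.CT.WD E WeierstrassCurve.map
  simp

theorem three_iff (D : ℕ) : TrivialThree D ↔ Pool.Agent.Y703.CT.Triv3 D := by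
  unfold TrivialThree Pool.Agent.Y703.CT.Triv3
  rw [E_eq]

theorem A_eq (D : ℕ) : Pool.Agent.R413.SQ.Cor.ES D = A D := by
  unfold Pool.Agent.R413.SQ.Cor.ES Pool.Agent.R413.SQ.Cor.a Pool.Agent.R413.SQ.Cor.b A
  push_cast
  rfl

theorem adm_iff (D : ℕ) : Adm D ↔ Pool.Agent.Results.MP_4a9ea6_nt.TwoPartTwistsX49.Adm D := by
  unfold Adm Pool.Agent.Results.MP_4a9ea6_nt.TwoPartTwistsX49.Adm
  refine and_congr_right fun h => ⟨fun h1 p hp => h1 p (Nat.prime_of_mem_primeFactors hp)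
    (Nat.dvd_of_mem_primeFactors hp), fun h1 p hp hpD => h1 p (Nat.mem_primeFactors.2
      ⟨hp, hpD, h.ne_zero⟩)⟩

theorem adm_ad (D : ℕ) : Adm D ↔ Pool.Agent.L0h2.M.Ad D := adm_iff D

theorem adm {D : ℕ} (h : Class D) : Adm D := ⟨h.1, h.2.2.2.1⟩

theorem two_iff' {D : ℕ} (h : Adm D) : TrivialTwo D ↔ (mat D).det ≠ 0 := by
  rw [← Pool.Agent.R413.SQ.Cor.crit ((adm_iff D).1 h), A_eq]
  rfl

theorem two_gd {D : ℕ} (h : Adm D) :
    TrivialTwo D ↔ Pool.Agent.R413.SQ.Gd Pool.Agent.Y698.SG.n4 D.primeFactors :=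
  (two_iff' h).trans (Pool.Agent.R413.SQ.Cor.det_iff ((adm_iff D).1 h))

theorem cls {D : ℕ} (h : Class D) : Pool.Agent.Y703.CT.Cls D := by
  refine ⟨⟨h.1.ne_zero, ?_, ?_⟩, h.2.1, h.2.2.1, h.2.2.2.2⟩
  · intro h3
    have := h.2.2.2.1 3 Nat.prime_three h3
    omega
  · intro p hp h5
    have h6 : p * p ∣ D := (Dvd.intro p (by ring)).trans h5
    exact hp.one_lt.ne' (Nat.isUnit_iff.1 (h.1 p h6))

theorem class_iff (D : ℕ) : Class D ↔ Squarefree D ∧ Pool.Agent.L0h2.J.Cl D.primeFactors := by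
  constructor
  · intro h
    have h1 := (Pool.Agent.Y710.CX.cls_iff h.1).1 (cls h)
    exact ⟨h.1, fun p hp => ⟨Nat.prime_of_mem_primeFactors hp, h.2.2.2.1 p
      (Nat.prime_of_mem_primeFactors hp) (Nat.dvd_of_mem_primeFactors hp)⟩, h1.2⟩
  · rintro ⟨h1, h2⟩
    have h3 := (Pool.Agent.Y710.CX.cls_iff h1).2 (Pool.Agent.L0h2.J.Cl_cx h2)
    refine ⟨h1, h3.2.1, h3.2.2.1, fun p hp hpD => (h2.1 p ?_).2, h3.2.2.2⟩
    exact Nat.mem_primeFactors.2 ⟨hp, hpD, h1.ne_zero⟩

theorem three_gd {D : ℕ} (h : Class D) :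
    TrivialThree D ↔ Pool.Agent.Y703.CX.Gd D.primeFactors := by
  obtain ⟨-, f, -, u, -, -, -, h2⟩ := Pool.Agent.Y703.CT.fin_all (cls h)
  have h3 := Pool.Agent.L0h2.J.Cl_cx ((class_iff D).1 h).2
  exact ((three_iff D).trans h2).trans
    ⟨Pool.Agent.Y710.CX.gd_of_nosplit Pool.Agent.Y333.CX.t_LAM h.1 h3,
      Pool.Agent.Y710.CX.nosplit_of_gd Pool.Agent.Y333.CX.t_LAM h.1 h3⟩

theorem num_ad (Q : ℕ → Prop) (X : ℕ) : num Adm Q X = Pool.Agent.L0h2.M.num Q X := by
  unfold num Pool.Agent.L0h2.M.num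
  simp only [adm_ad]

theorem num_cl (Q : ℕ → Prop) (X : ℕ) : num Class Q X = Pool.Agent.L0h2.J.num Q X := by
  unfold num Pool.Agent.L0h2.J.num
  simp only [class_iff]

theorem rank3 {D : ℕ} (hC : Class D) (h : TrivialThree D) : BSDRankZero 0 (-432 * (D : ℤ) ^ 2) := by
  have hC' := cls hC
  have hD0 : (D : ℤ) ≠ 0 := by exact_mod_cast hC'.1.1
  obtain ⟨-, f, -, u, -, -, -, h2⟩ := Pool.Agent.Y703.CT.fin_all hC'
  obtain ⟨F, h1, h2, h3, h4⟩ := Pool.Agent.Y703.CX.rank_form hC' (h2.1 ((three_iff D).1 h))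
  refine ⟨?_, F, h1, h2, ?_, h4⟩
  · have e : (4 * 0 ^ 3 + 27 * (-432 * (D : ℤ) ^ 2) ^ 2 : ℤ) = 27 * (432 * (D : ℤ) ^ 2) ^ 2 := by
      ring
    rw [e]
    positivity
  · rw [h3, h4]
    rfl

theorem rank2 {D : ℕ} (hC : Adm D) (h : TrivialTwo D) :
    BSDRankZero (-35 * (D : ℤ) ^ 2) (-98 * (D : ℤ) ^ 3) := by
  have hD0 : (D : ℤ) ≠ 0 := by exact_mod_cast hC.1.ne_zero
  obtain ⟨F, h1, h2, h3, h4⟩ := Pool.Agent.R413.SQ.Cor.rank_bsd ((adm_iff D).1 hC)
    ((two_iff' hC).1 h)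
  refine ⟨?_, F, h1, h2, ?_, h4⟩
  · have e : (4 * (-35 * (D : ℤ) ^ 2) ^ 3 + 27 * (-98 * (D : ℤ) ^ 3) ^ 2 : ℤ) =
        87808 * (D : ℤ) ^ 6 := by
      ring
    rw [e]
    positivity
  · have h3' : analyticOrderAt F 1 = 0 := h3
    have h4' : Module.finrank ℤ
        (WeierstrassCurve.Affine.Point
          (WeierstrassCurve.toAffine
            ({ a₁ := 0, a₂ := 0, a₃ := 0, a₄ := ((-35 * (D : ℤ) ^ 2 : ℤ) : ℚ),
               a₆ := ((-98 * (D : ℤ) ^ 3 : ℤ) : ℚ) } :
              WeierstrassCurve ℚ))) = 0 := h4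
    rw [h3', h4']
    rfl

theorem adm_tw {D M : ℕ} (hD : Adm D) (hM : Adm M) : Adm (tw D M) := by
  have h := Pool.Agent.L0h2.M.tw_sq hD.1 hM.1
  have e : tw D M = Pool.Agent.L0h2.M.tw D M := rfl
  rw [e]
  refine ⟨h.1, fun p hp hpD => ?_⟩
  have h1 : p ∈ (Pool.Agent.L0h2.M.tw D M).primeFactors :=
    Nat.mem_primeFactors.2 ⟨hp, hpD, h.1.ne_zero⟩
  rw [h.2, Finset.mem_symmDiff] at h1
  rcases h1 with h1 | h1
  · exact hD.2 p hp (Nat.dvd_of_mem_primeFactors h1.1)
  · exact hM.2 p hp (Nat.dvd_of_mem_primeFactors h1.1)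

theorem ev_iff {b : Bool} {P Q : Prop} (h : P ↔ Q) :
    (P ↔ b = true) ↔ Pool.Agent.L0h2.J.ev b Q := by
  unfold Pool.Agent.L0h2.J.ev
  rw [h]
  exact ⟨Iff.symm, Iff.symm⟩

end proof

theorem result :
    (∀ D : ℕ, Class D → TrivialThree D → BSDRankZero 0 (-432 * (D : ℤ) ^ 2)) ∧
    (∀ D : ℕ, Adm D → TrivialTwo D → BSDRankZero (-35 * (D : ℤ) ^ 2) (-98 * (D : ℤ) ^ 3)) ∧
    (∀ (t : ℕ) (M : Fin t → ℕ), (∀ i, Adm (M i)) → Function.Injective M →
      (∀ D : ℕ, Adm D → ∀ i, Adm (tw D (M i))) ∧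
      (∀ (b₀ : Bool) (b : Fin t → Bool), Tendsto (fun X : ℕ =>
          (num Class (fun D => (TrivialThree D ↔ b₀ = true) ∧
            ∀ i, (TrivialTwo (tw D (M i)) ↔ b i = true)) X : ℝ) /
            (num Class (fun _ => True) X : ℝ)) atTop
        (𝓝 ((if b₀ = true then c₃ else 1 - c₃) * ∏ i, (if b i = true then c₂ else 1 - c₂)))) ∧
      (∀ b : Fin t → Bool, Tendsto (fun X : ℕ =>
          (num Adm (fun D => ∀ i, (TrivialTwo (tw D (M i)) ↔ b i = true)) X : ℝ) /
            (num Adm (fun _ => True) X : ℝ)) atTop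
        (𝓝 (∏ i, (if b i = true then c₂ else 1 - c₂)))) ∧
      Tendsto (fun X : ℕ => (num Adm (fun D => ∃ i, TrivialTwo (tw D (M i))) X : ℝ) /
            (num Adm (fun _ => True) X : ℝ)) atTop (𝓝 (1 - (1 - c₂) ^ t)) ∧
      (∃ (a : ℝ) (X₀ : ℕ), 0 < a ∧ ∀ X : ℕ, X₀ ≤ X →
        a * X * (Real.log X) ^ (-(3 / 4) : ℝ) ≤
          (num Class (fun D => TrivialThree D ∧ ∀ i, TrivialTwo (tw D (M i))) X : ℝ)) ∧
      (∃ (a : ℝ) (X₀ : ℕ), 0 < a ∧ ∀ X : ℕ, X₀ ≤ X →
        a * X * (Real.log X) ^ (-(1 / 2) : ℝ) ≤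
          (num Adm (fun D => ∀ i, TrivialTwo (tw D (M i))) X : ℝ))) ∧
    (0.56 < c₃ ∧ c₃ < 1 ∧ 0.4194 < c₂ ∧ c₂ < 0.4195) := by
  have hc3 := Pool.Agent.Y461.CX.t_C3
  have hc2 := Pool.Agent.Y948.CQ.t_C2
  refine ⟨fun D hD => rank3 hD, fun D hD => rank2 hD, ?_, hc3.2.2.2, hc3.2.2.1, hc2.2.2.2.1,
    hc2.2.2.2.2⟩
  intro t M hM hi
  have hlaw3 : ∀ (b₀ : Bool) (b : Fin t → Bool), Tendsto (fun X : ℕ =>
          (num Class (fun D => (TrivialThree D ↔ b₀ = true) ∧
            ∀ i, (TrivialTwo (tw D (M i)) ↔ b i = true)) X : ℝ) /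
            (num Class (fun _ => True) X : ℝ)) atTop
        (𝓝 ((if b₀ = true then c₃ else 1 - c₃) * ∏ i, (if b i = true then c₂ else 1 - c₂))) := by
    intro b₀ b
    have h := Pool.Agent.L0h2.N.law_D t M (fun i => (adm_ad _).1 (hM i)) hi
      Pool.Agent.Y698.SG.n4 b₀ b (fun D => (TrivialThree D ↔ b₀ = true) ∧
            ∀ i, (TrivialTwo (tw D (M i)) ↔ b i = true)) (by
        intro D h1 h2
        have hD : Class D := (class_iff D).2 ⟨h1, h2⟩
        refine and_congr (ev_iff (three_gd hD)) (forall_congr' fun i => ?_)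
        rw [two_gd (adm_tw (adm hD) (hM i))]
        exact Iff.rfl)
    simp only [num_cl]
    exact h
  have hlaw2 : ∀ b : Fin t → Bool, Tendsto (fun X : ℕ =>
          (num Adm (fun D => ∀ i, (TrivialTwo (tw D (M i)) ↔ b i = true)) X : ℝ) /
            (num Adm (fun _ => True) X : ℝ)) atTop
        (𝓝 (∏ i, (if b i = true then c₂ else 1 - c₂))) := by
    intro b
    have h := Pool.Agent.L0h2.M.law_D t M (fun i => (adm_ad _).1 (hM i)) hi
      Pool.Agent.Y698.SG.n4 b (fun D => ∀ i, (TrivialTwo (tw D (M i)) ↔ b i = true)) (by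
        intro D hD
        refine forall_congr' fun i => ?_
        rw [two_gd (adm_tw ((adm_ad D).2 hD) (hM i))]
        exact Iff.rfl)
    simp only [num_ad]
    exact h
  have hP3 : (0 : ℝ) < c₃ := hc3.2.1
  have hP2 : (0 : ℝ) < c₂ := hc2.2.1
  refine ⟨fun D hD i => adm_tw hD (hM i), hlaw3, hlaw2, ?_, ?_, ?_⟩
  · have h := hlaw2 (fun _ => false)
    have hpos : ∀ᶠ X : ℕ in atTop, 0 < num Adm (fun _ => True) X := by
      filter_upwards [eventually_ge_atTop 1] with X hX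
      refine Pool.Agent.L0h2.N.nC_pos (C := Adm) (Q := fun _ => True) (D := 1) le_rfl hX
        ⟨squarefree_one, fun p hp hp1 => ?_⟩ trivial
      exact absurd (Nat.dvd_one.1 hp1) hp.one_lt.ne'
    have hnum : ∀ Q X, num Adm Q X = Pool.Agent.L0h2.N.nC Adm Q X := fun _ _ => rfl
    simp only [hnum] at h hpos ⊢
    refine Pool.Agent.L0h2.N.compl_of Adm (fun D => ∃ i, TrivialTwo (tw D (M i)))
      ((1 - c₂) ^ t) hpos ?_
    have e2 : ∏ _i : Fin t, (if false = true then c₂ else 1 - c₂) = (1 - c₂) ^ t := by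
      simp
    rw [← e2]
    refine h.congr fun X => ?_
    rw [Pool.Agent.L0h2.N.nC_congr (C := Adm)
      (P := fun D => ∀ i, (TrivialTwo (tw D (M i)) ↔ false = true))
      (Q := fun D => ¬ ∃ i, TrivialTwo (tw D (M i))) (fun D _ => by simp) X]
  · have h := hlaw3 true (fun _ => true)
    have h2 : Tendsto (fun X : ℕ => (Pool.Agent.L0h2.J.num (fun D => TrivialThree D ∧
        ∀ i, TrivialTwo (tw D (M i))) X : ℝ) /
          (Pool.Agent.L0h2.J.num (fun _ => True) X : ℝ)) atTop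
        (𝓝 ((if true = true then c₃ else 1 - c₃) *
          ∏ _i : Fin t, (if true = true then c₂ else 1 - c₂))) := by
      refine h.congr fun X => ?_
      rw [num_cl, num_cl]
      simp only [iff_true]
    simp only [num_cl]
    refine Pool.Agent.L0h2.J.low_of ?_ h2
    rw [if_pos rfl]
    refine mul_pos hP3 (Finset.prod_pos fun i _ => ?_)
    rw [if_pos rfl]
    exact hP2
  · have h := hlaw2 (fun _ => true)
    have h2 : Tendsto (fun X : ℕ => (Pool.Agent.L0h2.M.num (fun D =>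
        ∀ i, TrivialTwo (tw D (M i))) X : ℝ) /
          (Pool.Agent.L0h2.M.num (fun _ => True) X : ℝ)) atTop
        (𝓝 (∏ _i : Fin t, (if true = true then c₂ else 1 - c₂))) := by
      refine h.congr fun X => ?_
      rw [num_ad, num_ad]
      simp only [iff_true]
    simp only [num_ad]
    refine Pool.Agent.L0h2.N.low_ad ?_ h2
    refine Finset.prod_pos fun i _ => ?_
    rw [if_pos rfl]
    exact hP2

end Pool.Agent.Results.MP_696deb_nt.JointLawManyTwists
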