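import Pool.Agent.L0h2.P.FIN
import Pool.Agent.Y948.CQ.C2

/-!
# The rank form for any number of quadratic twists of `X_0(49)` at once: the joint law over all `D`

`D ≥ 1` is any squarefree number with `7 ∤ D` (`Adm`), and `E_m` is the curve `y² = x³ - 35 m² x - 98 m³`,
the quadratic twist by `m` of `X_0(49) : y² + x y = x³ - x² - 2 x - 1`. The twists of root number one are the
`E_D` and the `E_{-7D}`. Let `M_1, ..., M_k` be any pairwise different numbers with the property `Adm`; the
twist by `D M_i` is the twist by the squarefree part `tw D M_i = D M_i / gcd(D, M_i)²` of `D M_i`.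

If `E_D(ℚ)` is finite and `Ш(E_D/ℚ)[2] = 0` (`TrivialTwo D`), then the order of the `L`-series at `s = 1`
and the rank are `0` for the twists by `D` and by `-7 D`. The theorem gives the joint distribution of
the `k` events `TrivialTwo (D M_i)`, in the sense of the natural density, when `D` runs over all the
squarefree numbers prime to `7` or over those in any residue class: each of the `2^k` patterns has
exactly the proportion
`(1/2) ∏ (c₂ or 1 - c₂)`, plus `1/2` for the pattern in which no event happens, where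
`c₂ = ∏_{i ≥ 0} (1 - 2^{-(2i+1)}) = 0.4194...`. So the `D` fall into two halves: in one of them no twist
has `Ш[2] = 0` and rank `0`, and in the other one the `k` events are independent, for all `k`. In
particular the rank form holds with order and rank `0` for all the `2 k` twists by `D M_i` and
`-7 D M_i` at once for the proportion `c₂^k / 2` of the `D`, and for one at least of them for the
proportion `(1 - (1 - c₂)^k) / 2`, which is as near to `1/2` as one likes.

No independence of the `M_i` modulo squares is needed, and `M_i` and `D` may have common factors.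

The proof: `Pool/Agent/L0h2/P` (the joint law; `KEYG` by helper74, `FEWJ` by helper86, `DENJ` by helper1),
based on a Markov chain for the coranks of several symmetric matrices over `F_2` which have the same random
entries off the diagonal and different diagonals (`Pool/Agent/L0h2/{M,P}`), and the files quoted in
`Results/MP_696deb_nt/AllTwistsX49ExactProportion.lean` for a single twist.
-/

set_option autoImplicit false

open scoped Classical
open Filter Topology

namespace Pool.Agent.Results.MP_696deb_nt.JointLawNaturalDensity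

/-- the conclusion of the frozen statement for `y² = x³ + a x + b`, together with the fact that the
order of vanishing and the rank are both `0` -/
def BSDRankZero (a b : ℤ) : Prop :=
  4 * a ^ 3 + 27 * b ^ 2 ≠ 0 ∧
    ∃ F : ℂ → ℂ, Differentiable ℂ F ∧
      (∀ s : ℂ, (3 : ℝ) / 2 < s.re →
        HasProd
          (fun p : ℕ => open Classical in
            if p.Prime ∧ ¬ ((p : ℤ) ∣ 2 * (-4 * a ^ 3 - 27 * b ^ 2)) then
              (1 - ((p : ℂ) - (Nat.card {q : ZMod p × ZMod p //
                  q.2 ^ 2 = q.1 ^ 3 + (a : ZMod p) * q.1 + (b : ZMod p)} : ℂ))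
                  * (p : ℂ) ^ (-s) + (p : ℂ) ^ (1 - 2 * s))⁻¹
            else 1)
          (F s)) ∧
      analyticOrderAt F 1 =
        ((Module.finrank ℤ
          (WeierstrassCurve.Affine.Point
            (WeierstrassCurve.toAffine
              ({ a₁ := 0, a₂ := 0, a₃ := 0, a₄ := (a : ℚ), a₆ := (b : ℚ) } :
                WeierstrassCurve ℚ))) : ℕ) : ℕ∞) ∧
      Module.finrank ℤ
        (WeierstrassCurve.Affine.Point
          (WeierstrassCurve.toAffine
            ({ a₁ := 0, a₂ := 0, a₃ := 0, a₄ := (a : ℚ), a₆ := (b : ℚ) } :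
              WeierstrassCurve ℚ))) = 0

/-- `D` is squarefree (so `D ≠ 0`) and prime to `7`. -/
def Adm (D : ℕ) : Prop := Squarefree D ∧ ¬ 7 ∣ D

/-- The quadratic twist over `ℚ` by `D` of `X_0(49) : y² + x y = x³ - x² - 2 x - 1`, with a minimal
integral equation. -/
def E (D : ℕ) : WeierstrassCurve ℚ :=
  if D % 4 = 1 then
    { a₁ := 1, a₂ := -(3 * (D : ℚ) + 1) / 4, a₃ := 0, a₄ := -2 * (D : ℚ) ^ 2, a₆ := -(D : ℚ) ^ 3 }
  else { a₁ := 0, a₂ := 0, a₃ := 0, a₄ := -35 * (D : ℚ) ^ 2, a₆ := -98 * (D : ℚ) ^ 3 }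

/-- `E_D(ℚ)` is finite and `Ш(E_D/ℚ)[2] = 0`. -/
def TrivialTwo (D : ℕ) : Prop :=
  Finite (E D).toAffine.Point ∧ ∀ x : Pool.Agent.TH841.NF.D.Sha (E D), x + x = 0 → x = 0

/-- the squarefree part of the product of two squarefree numbers -/
def tw (D M : ℕ) : ℕ := D * M / (Nat.gcd D M) ^ 2

/-- the proportion of the `D ≤ X` with the property `Q` among the `D ≤ X` with the property `Adm` in the
residue class of `r` modulo `q` -/
noncomputable def prop (q r : ℕ) (Q : ℕ → Prop) (X : ℕ) : ℝ :=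
  (((Finset.Icc 1 X).filter fun D => (Adm D ∧ D % q = r % q) ∧ Q D).card : ℝ) /
    (((Finset.Icc 1 X).filter fun D => Adm D ∧ D % q = r % q).card : ℝ)

/-- the constant `0.4194...` -/
noncomputable def c₂ : ℝ := ∏' i : ℕ, (1 - (1 / 2 : ℝ) ^ (2 * i + 1))

section proof

lemma two_iff (D : ℕ) : TrivialTwo D ↔ Pool.Agent.L0h1.EV.TT D := Iff.rfl

theorem bsd {D : ℕ} (h : Adm D) (h2 : TrivialTwo D) {m : ℤ} (hm : m = D ∨ m = -7 * D) :
    BSDRankZero (-35 * m ^ 2) (-98 * m ^ 3) := by
  obtain ⟨w, hw⟩ := Pool.Agent.L0h4.TA.exists_w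
  have hq := Pool.Agent.L0h74.EV.qpw_of hw
  obtain ⟨F, h1, h3, h4, h5⟩ := Pool.Agent.L0h1.EV.rank_all7 hq h.1 h.2
    ((Pool.Agent.L0h1.EV.tt_iff hq h.1 h.2).1 h2) hm
  have h6 := Pool.Agent.L0h1.KD.finrank_zero h5
  have hm0 : m ≠ 0 := by
    have hD0 : (D : ℤ) ≠ 0 := by exact_mod_cast h.1.ne_zero
    rcases hm with rfl | rfl
    · exact hD0
    · exact mul_ne_zero (by norm_num) hD0
  refine ⟨?_, F, h1, ?_, ?_, h6⟩
  · have e : (4 * (-35 * m ^ 2) ^ 3 + 27 * (-98 * m ^ 3) ^ 2 : ℤ) = 87808 * m ^ 6 := by ring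
    rw [e]
    exact mul_ne_zero (by norm_num) (pow_ne_zero _ hm0)
  · intro s hs
    have := h3 s hs
    unfold Pool.Agent.L0h1.KD.tg at this
    exact this
  · rw [h6, (h1.analyticAt 1).analyticOrderAt_eq_zero.2 h4]
    rfl

lemma prop_eq (q r : ℕ) (Q : ℕ → Prop) (X : ℕ) :
    prop q r Q X = (Pool.Agent.L0h2.P.nC (Pool.Agent.L0h2.P.Fam q r) Q X : ℝ) /
      (Pool.Agent.L0h2.P.nC (Pool.Agent.L0h2.P.Fam q r) (fun _ => True) X : ℝ) := by
  unfold prop Pool.Agent.L0h2.P.nC
  refine congrArg₂ (fun a b : ℕ => (a : ℝ) / (b : ℝ)) ?_ ?_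
  · refine Pool.Agent.L0h2.P.flt _ _ _ _ _ fun D _ => ?_
    unfold Adm Pool.Agent.L0h2.P.Fam
    tauto
  · refine Pool.Agent.L0h2.P.flt _ _ _ _ _ fun D _ => ?_
    unfold Adm Pool.Agent.L0h2.P.Fam
    tauto

end proof

/-- **The joint law of any number of quadratic twists of `X_0(49)`, in the sense of the natural density, in
all residue classes.** -/
theorem result :
    (∀ D : ℕ, Adm D → TrivialTwo D → ∀ m : ℤ, m = D ∨ m = -7 * D →
      BSDRankZero (-35 * m ^ 2) (-98 * m ^ 3)) ∧
    (∀ D M : ℕ, Adm D → Adm M → Adm (tw D M) ∧ D * M = tw D M * (Nat.gcd D M) ^ 2) ∧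
    (∀ (k : ℕ) (M : Fin k → ℕ), (∀ i, Adm (M i)) → Function.Injective M →
      ∀ (q r : ℕ), 0 < q → (∃ D, Adm D ∧ D % q = r % q) →
      (∀ b : Fin k → Bool, Tendsto (prop q r fun D => ∀ i, (TrivialTwo (tw D (M i)) ↔ b i = true))
        atTop (𝓝 ((∏ i, (if b i = true then c₂ else 1 - c₂)) / 2 +
          if ∀ i, b i = false then 1 / 2 else 0))) ∧
      (0 < k → Tendsto (prop q r fun D => ∀ i, TrivialTwo (tw D (M i))) atTop (𝓝 (c₂ ^ k / 2))) ∧
      Tendsto (prop q r fun D => ∃ i, TrivialTwo (tw D (M i))) atTop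
        (𝓝 ((1 - (1 - c₂) ^ k) / 2))) ∧
    (0.4194 < c₂ ∧ c₂ < 0.4195) := by
  have hc2 := Pool.Agent.Y948.CQ.t_C2
  refine ⟨fun D h h2 m hm => bsd h h2 hm, ?_, ?_, hc2.2.2.2.1, hc2.2.2.2.2⟩
  · intro D M hD hM
    obtain ⟨h1, h2, -⟩ := Pool.Agent.L0h2.P.tw_facts hD hM
    exact ⟨h1, h2⟩
  · intro k M hM hi q r hq hne
    obtain ⟨D₀, hD₀, hr⟩ := hne
    have h₀ : Pool.Agent.L0h2.P.Fam q r D₀ := ⟨hD₀.1, hD₀.2, hr⟩
    have hDJ := Pool.Agent.L0h2.P.dj
    refine ⟨fun b => ?_, fun hk => ?_, ?_⟩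
    · have h := Pool.Agent.L0h2.P.law_tw hDJ hq r M hM hi h₀ b
      have e : (∏ i, (if b i = true then c₂ else 1 - c₂)) / 2 +
          (if ∀ i, b i = false then 1 / 2 else 0) = Pool.Agent.L0h2.P.lim b := by
        unfold Pool.Agent.L0h2.P.lim Pool.Agent.L0h2.P.amc
        have e1 : c₂ = Pool.Agent.Y703.CQ.c2 := rfl
        rw [e1]
        split_ifs <;> ring
      rw [e]
      exact h.congr fun X => (prop_eq q r _ X).symm
    · exact (Pool.Agent.L0h2.P.law_all hDJ hq r hk.ne' M hM hi h₀).congr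
        fun X => (prop_eq q r _ X).symm
    · exact (Pool.Agent.L0h2.P.law_ex hDJ hq r M hM hi h₀).congr
        fun X => (prop_eq q r _ X).symm

end Pool.Agent.Results.MP_696deb_nt.JointLawNaturalDensity
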