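import Mathlib
import Pool.Agent.L0h2.J.NS
import Pool.Agent.Y703.CX.Rank
import Pool.Agent.R413.SQ.Cor

/-!
# The rank form for the cubic twists `x³ + y³ = D` and for the twists of `X_0(49)` by the same `D`:
# the two good events are independent

`D` runs over the class of the squarefree numbers, all prime factors `≡ 1 mod 4`, exactly one prime factor
`≡ 2 mod 3`, `D ≢ ±1 mod 9`. Two curves which are not isogenous are attached to `D`: the cubic twist
`x³ + y³ = D`, that is `y² = x³ - 432 D²`, and the quadratic twist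
`A_D : y² = x³ - 35 D² x - 98 D³` of `X_0(49)`. If the curve `E_D : y² + D y = x³`, `3`-isogenous to
`x³ + y³ = D`, has finitely many rational points and `Ш[3^∞] = 0` (`TrivialThree`), then order and rank
are `0` for `x³ + y³ = D`; if `A_D` has finitely many rational points and `Ш[2] = 0` (`TrivialTwo`),
then order and rank are `0` for `A_D`. The two events are asymptotically independent: the four
combinations have exactly the proportions `c₃ c₂`, `c₃ (1 - c₂)`, `(1 - c₃) c₂`, `(1 - c₃) (1 - c₂)` with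
`c₃ = ∏_{i ≥ 1} (1 - 3^{-i}) = 0.5601...`, `c₂ = ∏_{i ≥ 0} (1 - 2^{-(2i+1)}) = 0.4194...`. In particular the
rank form holds for both curves at once (with order and rank `0`) for at least the proportion
`c₃ c₂ = 0.2349...` of the class, and for one of them for at least the proportion
`1 - (1 - c₃) (1 - c₂) = 0.7446...`.

The counting is in `Pool/Agent/L0h2/J` (characters of order six of the pairs of prime factors, an
equidistribution in boxes for the cubic and quadratic symbols together, error sets of smaller order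
than the class of size `X (log X)^{-3/4}`); it extends the projects CX (`Pool/Agent/Y703/CX`) and SQ
(`Pool/Agent/R413/SQ`) of the starting files, from which the statements about a single curve are taken.
-/

set_option autoImplicit false

open scoped Classical
open Filter Topology

namespace Pool.Agent.L0h2.Old.JointLawTwoFamilies

/-- the conclusion of the frozen statement for `y² = x³ + a x + b`, together with the fact that the
order of vanishing and the rank are both `0` -/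
def BSDRankZero (a b : ℤ) : Prop :=
  4 * a ^ 3 + 27 * b ^ 2 ≠ 0 ∧
    ∃ F : ℂ → ℂ, Differentiable ℂ F ∧
      (∀ s : ℂ, (3 : ℝ) / 2 < s.re →
        HasProd
          (fun p : ℕ => open Classical in
            if p.Prime ∧ ¬ ((p : ℤ) ∣ 2 * (-4 * a ^ 3 - 27 * b ^ 2)) then
              (1 - ((p : ℂ) - (Nat.card {q : ZMod p × ZMod p //
                  q.2 ^ 2 = q.1 ^ 3 + (a : ZMod p) * q.1 + (b : ZMod p)} : ℂ))
                  * (p : ℂ) ^ (-s) + (p : ℂ) ^ (1 - 2 * s))⁻¹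
            else 1)
          (F s)) ∧
      analyticOrderAt F 1 =
        ((Module.finrank ℤ
          (WeierstrassCurve.Affine.Point
            (WeierstrassCurve.toAffine
              ({ a₁ := 0, a₂ := 0, a₃ := 0, a₄ := (a : ℚ), a₆ := (b : ℚ) } :
                WeierstrassCurve ℚ))) : ℕ) : ℕ∞) ∧
      Module.finrank ℤ
        (WeierstrassCurve.Affine.Point
          (WeierstrassCurve.toAffine
            ({ a₁ := 0, a₂ := 0, a₃ := 0, a₄ := (a : ℚ), a₆ := (b : ℚ) } :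
              WeierstrassCurve ℚ))) = 0

/-- the class: `D` squarefree, not `±1` modulo `9`, all prime factors `≡ 1` modulo `4`, exactly one
prime factor congruent to `2` modulo `3` -/
def Class (D : ℕ) : Prop :=
  Squarefree D ∧ D % 9 ≠ 1 ∧ D % 9 ≠ 8 ∧ (∀ p : ℕ, p.Prime → p ∣ D → p % 4 = 1) ∧
    ∃ q : ℕ, q.Prime ∧ q % 3 = 2 ∧ q ∣ D ∧ ∀ p : ℕ, p.Prime → p ∣ D → p ≠ q → p % 3 = 1

/-- the curve `y² + D y = x³` over `ℚ` -/
def E (D : ℕ) : WeierstrassCurve ℚ := { a₁ := 0, a₂ := 0, a₃ := (D : ℚ), a₄ := 0, a₆ := 0 }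

/-- the curve `y² = x³ - 35 D² x - 98 D³` over `ℚ`, the quadratic twist by `D` of `X_0(49)` -/
def A (D : ℕ) : WeierstrassCurve ℚ :=
  { a₁ := 0, a₂ := 0, a₃ := 0, a₄ := -35 * (D : ℚ) ^ 2, a₆ := -98 * (D : ℚ) ^ 3 }

/-- `E_D(ℚ)` is finite and `Ш(E_D/ℚ)[3^∞] = 0` -/
def TrivialThree (D : ℕ) : Prop :=
  Finite (E D).toAffine.Point ∧
    ∀ (n : ℕ) (x : Pool.Agent.TH841.SH.D.Sha (E D)), 3 ^ n • x = 0 → x = 0

/-- `A_D(ℚ)` is finite and `Ш(A_D/ℚ)[2] = 0` -/
def TrivialTwo (D : ℕ) : Prop :=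
  Finite (A D).toAffine.Point ∧
    ∀ x : Pool.Agent.TH841.NF.D.Sha (A D), 2 • x = 0 → x = 0

/-- the number of the `D ≤ X` of the class with the property `Q` -/
noncomputable def num (Q : ℕ → Prop) (X : ℕ) : ℕ :=
  ((Finset.Icc 1 X).filter fun D => Class D ∧ Q D).card

/-- the constant `0.5601...` -/
noncomputable def c₃ : ℝ := ∏' i : ℕ, (1 - (1 / 3 : ℝ) ^ (i + 1))

/-- the constant `0.4194...` -/
noncomputable def c₂ : ℝ := ∏' i : ℕ, (1 - (1 / 2 : ℝ) ^ (2 * i + 1))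

section proof

open Pool.Agent.R413.SQ
open Pool.Agent.Results.MP_4a9ea6_nt.TwoPartTwistsX49 (Adm mat)

theorem E_eq (D : ℕ) : Pool.Agent.Y703.CT.EQ (Pool.Agent.Y703.CT.WD D) = E D := by
  unfold Pool.Agent.Y703.CT.EQ Pool.Agent.Y703.CT.WD E WeierstrassCurve.map
  simp

theorem three_iff (D : ℕ) : TrivialThree D ↔ Pool.Agent.Y703.CT.Triv3 D := by
  unfold TrivialThree Pool.Agent.Y703.CT.Triv3
  rw [E_eq]

theorem A_eq (D : ℕ) : Pool.Agent.R413.SQ.Cor.ES D = A D := by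
  unfold Pool.Agent.R413.SQ.Cor.ES Pool.Agent.R413.SQ.Cor.a Pool.Agent.R413.SQ.Cor.b A
  push_cast
  rfl

theorem two_iff' {D : ℕ} (h : Adm D) : TrivialTwo D ↔ (mat D).det ≠ 0 := by
  rw [← Pool.Agent.R413.SQ.Cor.crit h, A_eq]
  rfl

theorem adm {D : ℕ} (h : Class D) : Adm D :=
  ⟨h.1, fun p hp => h.2.2.2.1 p (Nat.prime_of_mem_primeFactors hp)
    (Nat.dvd_of_mem_primeFactors hp)⟩

theorem cls {D : ℕ} (h : Class D) : Pool.Agent.Y703.CT.Cls D := by
  refine ⟨⟨h.1.ne_zero, ?_, ?_⟩, h.2.1, h.2.2.1, h.2.2.2.2⟩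
  · intro h3
    have := h.2.2.2.1 3 Nat.prime_three h3
    omega
  · intro p hp h5
    have h6 : p * p ∣ D := (Dvd.intro p (by ring)).trans h5
    exact hp.one_lt.ne' (Nat.isUnit_iff.1 (h.1 p h6))

theorem class_iff (D : ℕ) : Class D ↔ Squarefree D ∧ Pool.Agent.L0h2.J.Cl D.primeFactors := by
  constructor
  · intro h
    have h1 := (Pool.Agent.Y710.CX.cls_iff h.1).1 (cls h)
    exact ⟨h.1, fun p hp => ⟨Nat.prime_of_mem_primeFactors hp, h.2.2.2.1 p
      (Nat.prime_of_mem_primeFactors hp) (Nat.dvd_of_mem_primeFactors hp)⟩, h1.2⟩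
  · rintro ⟨h1, h2⟩
    have h3 := (Pool.Agent.Y710.CX.cls_iff h1).2 (Pool.Agent.L0h2.J.Cl_cx h2)
    refine ⟨h1, h3.2.1, h3.2.2.1, fun p hp hpD => (h2.1 p ?_).2, h3.2.2.2⟩
    exact Nat.mem_primeFactors.2 ⟨hp, hpD, h1.ne_zero⟩

theorem three_gd {D : ℕ} (h : Class D) :
    TrivialThree D ↔ Pool.Agent.Y703.CX.Gd D.primeFactors := by
  obtain ⟨-, f, -, u, -, -, -, h2⟩ := Pool.Agent.Y703.CT.fin_all (cls h)
  have h3 := Pool.Agent.L0h2.J.Cl_cx ((class_iff D).1 h).2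
  exact ((three_iff D).trans h2).trans
    ⟨Pool.Agent.Y710.CX.gd_of_nosplit Pool.Agent.Y333.CX.t_LAM h.1 h3,
      Pool.Agent.Y710.CX.nosplit_of_gd Pool.Agent.Y333.CX.t_LAM h.1 h3⟩

theorem two_gd {D : ℕ} (h : Class D) :
    TrivialTwo D ↔ Pool.Agent.R413.SQ.Gd Pool.Agent.Y698.SG.n4 D.primeFactors :=
  (two_iff' (adm h)).trans (Pool.Agent.R413.SQ.Cor.det_iff (adm h))

theorem num_num (Q : ℕ → Prop) (X : ℕ) : num Q X = Pool.Agent.L0h2.J.num Q X := by
  unfold num Pool.Agent.L0h2.J.num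
  simp only [class_iff]

theorem rank3 {D : ℕ} (hC : Class D) (h : TrivialThree D) : BSDRankZero 0 (-432 * (D : ℤ) ^ 2) := by
  have hC' := cls hC
  have hD0 : (D : ℤ) ≠ 0 := by exact_mod_cast hC'.1.1
  obtain ⟨-, f, -, u, -, -, -, h2⟩ := Pool.Agent.Y703.CT.fin_all hC'
  obtain ⟨F, h1, h2, h3, h4⟩ := Pool.Agent.Y703.CX.rank_form hC' (h2.1 ((three_iff D).1 h))
  refine ⟨?_, F, h1, h2, ?_, h4⟩
  · have e : (4 * 0 ^ 3 + 27 * (-432 * (D : ℤ) ^ 2) ^ 2 : ℤ) = 27 * (432 * (D : ℤ) ^ 2) ^ 2 := by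
      ring
    rw [e]
    positivity
  · rw [h3, h4]
    rfl

theorem rank2 {D : ℕ} (hC : Class D) (h : TrivialTwo D) :
    BSDRankZero (-35 * (D : ℤ) ^ 2) (-98 * (D : ℤ) ^ 3) := by
  have hD0 : (D : ℤ) ≠ 0 := by exact_mod_cast (adm hC).1.ne_zero
  obtain ⟨F, h1, h2, h3, h4⟩ := Pool.Agent.R413.SQ.Cor.rank_bsd (adm hC)
    ((two_iff' (adm hC)).1 h)
  refine ⟨?_, F, h1, h2, ?_, h4⟩
  · have e : (4 * (-35 * (D : ℤ) ^ 2) ^ 3 + 27 * (-98 * (D : ℤ) ^ 3) ^ 2 : ℤ) =
        87808 * (D : ℤ) ^ 6 := by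
      ring
    rw [e]
    positivity
  · have h3' : analyticOrderAt F 1 = 0 := h3
    have h4' : Module.finrank ℤ
        (WeierstrassCurve.Affine.Point
          (WeierstrassCurve.toAffine
            ({ a₁ := 0, a₂ := 0, a₃ := 0, a₄ := ((-35 * (D : ℤ) ^ 2 : ℤ) : ℚ),
               a₆ := ((-98 * (D : ℤ) ^ 3 : ℤ) : ℚ) } :
              WeierstrassCurve ℚ))) = 0 := h4
    rw [h3', h4']
    rfl

theorem ev_iff {b : Bool} {P Q : Prop} (h : P ↔ Q) :
    (P ↔ b = true) ↔ Pool.Agent.L0h2.J.ev b Q := by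
  unfold Pool.Agent.L0h2.J.ev
  rw [h]
  exact ⟨Iff.symm, Iff.symm⟩

end proof

theorem result :
    (∀ D : ℕ, Class D →
      (TrivialThree D → BSDRankZero 0 (-432 * (D : ℤ) ^ 2)) ∧
      (TrivialTwo D → BSDRankZero (-35 * (D : ℤ) ^ 2) (-98 * (D : ℤ) ^ 3))) ∧
    (∀ b₁ b₂ : Bool, Tendsto (fun X : ℕ =>
        (num (fun D => (TrivialThree D ↔ b₁ = true) ∧ (TrivialTwo D ↔ b₂ = true)) X : ℝ) /
          (num (fun _ => True) X : ℝ)) atTop
      (𝓝 ((if b₁ = true then c₃ else 1 - c₃) * (if b₂ = true then c₂ else 1 - c₂)))) ∧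
    (0.56 < c₃ ∧ 0.4194 < c₂ ∧ c₂ < 0.4195) ∧
    ∃ (a : ℝ) (X₀ : ℕ), 0 < a ∧ ∀ X : ℕ, X₀ ≤ X →
      a * X * (Real.log X) ^ (-(3 / 4) : ℝ) ≤
        (num (fun D => TrivialThree D ∧ TrivialTwo D) X : ℝ) := by
  have hc3 := Pool.Agent.Y461.CX.t_C3
  have hc2 := Pool.Agent.Y948.CQ.t_C2
  have hlaw : ∀ b₁ b₂ : Bool, Tendsto (fun X : ℕ =>
        (num (fun D => (TrivialThree D ↔ b₁ = true) ∧ (TrivialTwo D ↔ b₂ = true)) X : ℝ) /
          (num (fun _ => True) X : ℝ)) atTop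
      (𝓝 ((if b₁ = true then c₃ else 1 - c₃) * (if b₂ = true then c₂ else 1 - c₂))) := by
    intro b₁ b₂
    have h := Pool.Agent.L0h2.J.law
      (Q := fun D => (TrivialThree D ↔ b₁ = true) ∧ (TrivialTwo D ↔ b₂ = true))
      Pool.Agent.Y698.SG.n4 (b₁, b₂) (by
        intro D h1 h2
        have hD : Class D := (class_iff D).2 ⟨h1, h2⟩
        exact and_congr (ev_iff (three_gd hD)) (ev_iff (two_gd hD)))
    simp only [num_num]
    exact h
  refine ⟨fun D hD => ⟨rank3 hD, rank2 hD⟩, hlaw, ⟨hc3.2.2.2, hc2.2.2.2.1, hc2.2.2.2.2⟩, ?_⟩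
  have h := hlaw true true
  simp only [num_num] at h ⊢
  have hpos : (0 : ℝ) < (if true = true then c₃ else 1 - c₃) * (if true = true then c₂ else 1 - c₂) := by
    rw [if_pos rfl, if_pos rfl]
    exact mul_pos hc3.2.1 hc2.2.1
  have h2 := Pool.Agent.L0h2.J.low_of hpos h
  simpa only [iff_true] using h2

end Pool.Agent.L0h2.Old.JointLawTwoFamilies
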