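import Mathlib
import Pool.Agent.L0h2.J.NS
import Pool.Agent.Y703.CX.Rank
import Pool.Agent.R413.SQ.Cor

/-!
# The 3-part of the formula for the cubic twists and the 2-part for the twists of `X_0(49)` by the
# same `D`: exact joint proportions

`D` runs over the class of the squarefree numbers, all prime factors `≡ 1 mod 4`, exactly one prime factor
`≡ 2 mod 3`, `D ≢ ±1 mod 9`. Two curves over `ℚ` which are not isogenous are attached to `D`:
`E_D : y² + D y = x³` (`3`-isogenous to the cubic `x³ + y³ = D`) and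
`A_D : y² + x y = x³ - (3 D + 1) / 4 x² - 2 D² x - D³`, the quadratic twist of `X_0(49)`; both equations
are minimal. `ThreePart D` says that the 3-part of the conjecture holds for `E_D` and that it is trivial:
`E_D(ℚ)` finite, `Ш[3^∞] = 0`, and the predicted order `#tors² L(E_D, 1) / (Ω ∏ c_p)` of `Ш` is a unit at
all the primes above `3`. `TwoPart D` is the same for `A_D` and the prime `2`. For each `D` of the class
the statement about the predicted order alone is equivalent to the one about the points and `Ш` alone.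
The theorem: the two events are asymptotically independent; the four combinations have exactly the
proportions `c₃ c₂`, `c₃ (1 - c₂)`, `(1 - c₃) c₂`, `(1 - c₃) (1 - c₂)`, with
`c₃ = ∏_{i ≥ 1} (1 - 3^{-i}) = 0.5601...`, `c₂ = ∏_{i ≥ 0} (1 - 2^{-(2i+1)}) = 0.4194...`.

The counting is in `Pool/Agent/L0h2/J`; the facts about a single curve are those of the starting files
`MP_4a9ea6_nt/ThreePartCubeFree` and `MP_4a9ea6_nt/TwoPartTwistsX49`.
-/

set_option autoImplicit false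

open scoped Classical
open Filter Topology NumberField IsDedekindDomain

namespace Pool.Agent.L0h2.Old.JointLawTwoThreeParts

open Pool.Agent.Y703.CT (WD EQ IsL ThreeUnit ThreeInt tamProd tors)
open Pool.Agent.W97.MT (IsGloballyMinimal)
open Pool.Agent.Y700 (Omega)
open Pool.Agent.Results.MP_4a9ea6_nt.TwoPartTwistsX49 (MinimalAt TwoPart)

/-- the curve `A_D`, the quadratic twist by `D` of `X_0(49)`, by its minimal equation -/
abbrev A (D : ℕ) : WeierstrassCurve ℚ := Pool.Agent.Results.MP_4a9ea6_nt.TwoPartTwistsX49.E D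

/-- the class: `D` squarefree, not `±1` modulo `9`, all prime factors `≡ 1` modulo `4`, exactly one
prime factor congruent to `2` modulo `3` -/
def Class (D : ℕ) : Prop :=
  Squarefree D ∧ D % 9 ≠ 1 ∧ D % 9 ≠ 8 ∧ (∀ p : ℕ, p.Prime → p ∣ D → p % 4 = 1) ∧
    ∃ q : ℕ, q.Prime ∧ q % 3 = 2 ∧ q ∣ D ∧ ∀ p : ℕ, p.Prime → p ∣ D → p ≠ q → p % 3 = 1

/-- the order of `Ш(E_D/ℚ)` predicted by the formula, `l` the value of the L-function at `s = 1` -/
noncomputable def predicted (D : ℕ) (l : ℂ) : ℂ :=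
  l * (tors D : ℂ) ^ 2 / (((Omega (WD D) : ℝ) : ℂ) * (tamProd (WD D) : ℂ))

/-- the 3-part of the conjecture for `E_D`, with trivial 3-primary part of `Ш`: the L-function has an
entire continuation `f` with `f 1 ≠ 0`, `E_D(ℚ)` is finite, `Ш[3^∞] = 0` and the predicted order of `Ш`
is a unit at three -/
def ThreePart (D : ℕ) : Prop :=
  Finite (EQ (WD D)).toAffine.Point ∧
    (∀ (n : ℕ) (x : Pool.Agent.TH841.SH.D.Sha (EQ (WD D))), 3 ^ n • x = 0 → x = 0) ∧
    ∃ f : ℂ → ℂ, IsL (WD D) f ∧ f 1 ≠ 0 ∧ ThreeUnit (predicted D (f 1))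

/-- the number of the `D ≤ X` of the class with the property `Q` -/
noncomputable def num (Q : ℕ → Prop) (X : ℕ) : ℕ :=
  ((Finset.Icc 1 X).filter fun D => Class D ∧ Q D).card

/-- the constant `0.5601...` -/
noncomputable def c₃ : ℝ := ∏' i : ℕ, (1 - (1 / 3 : ℝ) ^ (i + 1))

/-- the constant `0.4194...` -/
noncomputable def c₂ : ℝ := ∏' i : ℕ, (1 - (1 / 2 : ℝ) ^ (2 * i + 1))

section proof

open Pool.Agent.R413.SQ
open Pool.Agent.Results.MP_4a9ea6_nt.TwoPartTwistsX49 (Adm mat)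

theorem adm {D : ℕ} (h : Class D) : Adm D :=
  ⟨h.1, fun p hp => h.2.2.2.1 p (Nat.prime_of_mem_primeFactors hp)
    (Nat.dvd_of_mem_primeFactors hp)⟩

theorem cls {D : ℕ} (h : Class D) : Pool.Agent.Y703.CT.Cls D := by
  refine ⟨⟨h.1.ne_zero, ?_, ?_⟩, h.2.1, h.2.2.1, h.2.2.2.2⟩
  · intro h3
    have := h.2.2.2.1 3 Nat.prime_three h3
    omega
  · intro p hp h5
    have h6 : p * p ∣ D := (Dvd.intro p (by ring)).trans h5
    exact hp.one_lt.ne' (Nat.isUnit_iff.1 (h.1 p h6))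

theorem class_iff (D : ℕ) : Class D ↔ Squarefree D ∧ Pool.Agent.L0h2.J.Cl D.primeFactors := by
  constructor
  · intro h
    have h1 := (Pool.Agent.Y710.CX.cls_iff h.1).1 (cls h)
    exact ⟨h.1, fun p hp => ⟨Nat.prime_of_mem_primeFactors hp, h.2.2.2.1 p
      (Nat.prime_of_mem_primeFactors hp) (Nat.dvd_of_mem_primeFactors hp)⟩, h1.2⟩
  · rintro ⟨h1, h2⟩
    have h3 := (Pool.Agent.Y710.CX.cls_iff h1).2 (Pool.Agent.L0h2.J.Cl_cx h2)
    refine ⟨h1, h3.2.1, h3.2.2.1, fun p hp hpD => (h2.1 p ?_).2, h3.2.2.2⟩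
    exact Nat.mem_primeFactors.2 ⟨hp, hpD, h1.ne_zero⟩

theorem three_iff {D : ℕ} (hC : Class D) : ThreePart D ↔ Pool.Agent.Y703.CT.Triv3 D := by
  constructor
  · rintro ⟨h1, h2, -⟩
    exact ⟨h1, h2⟩
  · intro h
    have hc := cls hC
    obtain ⟨-, f, hf, u, hu, -, h1, -⟩ := Pool.Agent.Y703.CT.fin_all hc
    have hU : ThreeUnit u := h1.2 h
    have hne : f 1 ≠ 0 := Pool.Agent.Y703.CX.val_ne hc h.1 hU.1 hu
    have hB : ((Omega (WD D) : ℝ) : ℂ) * (tamProd (WD D) : ℂ) ≠ 0 := by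
      intro h0
      apply hne
      rw [hu, h0, zero_div, mul_zero]
    have hT : (tors D : ℂ) ^ 2 ≠ 0 := by
      intro h0
      apply hne
      rw [hu, h0, div_zero, mul_zero]
    refine ⟨h.1, h.2, f, hf, hne, ?_⟩
    have e : predicted D (f 1) = u := by
      unfold predicted
      rw [hu, div_eq_iff hB, mul_assoc, div_mul_cancel₀ _ hT]
    rw [e]
    exact hU

theorem three_gd {D : ℕ} (h : Class D) :
    ThreePart D ↔ Pool.Agent.Y703.CX.Gd D.primeFactors := by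
  obtain ⟨-, f, -, u, -, -, -, h2⟩ := Pool.Agent.Y703.CT.fin_all (cls h)
  have h3 := Pool.Agent.L0h2.J.Cl_cx ((class_iff D).1 h).2
  exact ((three_iff h).trans h2).trans
    ⟨Pool.Agent.Y710.CX.gd_of_nosplit Pool.Agent.Y333.CX.t_LAM h.1 h3,
      Pool.Agent.Y710.CX.nosplit_of_gd Pool.Agent.Y333.CX.t_LAM h.1 h3⟩

theorem two_gd {D : ℕ} (h : Class D) :
    TwoPart D ↔ Pool.Agent.R413.SQ.Gd Pool.Agent.Y698.SG.n4 D.primeFactors :=
  (Pool.Agent.Results.MP_4a9ea6_nt.TwoPartTwistsX49.two_iff (adm h)).trans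
    (Pool.Agent.R413.SQ.Cor.det_iff (adm h))

theorem num_num (Q : ℕ → Prop) (X : ℕ) : num Q X = Pool.Agent.L0h2.J.num Q X := by
  unfold num Pool.Agent.L0h2.J.num
  simp only [class_iff]

theorem ev_iff {b : Bool} {P Q : Prop} (h : P ↔ Q) :
    (P ↔ b = true) ↔ Pool.Agent.L0h2.J.ev b Q := by
  unfold Pool.Agent.L0h2.J.ev
  rw [h]
  exact ⟨Iff.symm, Iff.symm⟩

end proof

theorem result :
    (∀ D : ℕ, Class D →
      IsGloballyMinimal (WD D) ∧
      (ThreePart D ↔ Finite (EQ (WD D)).toAffine.Point ∧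
        ∀ (n : ℕ) (x : Pool.Agent.TH841.SH.D.Sha (EQ (WD D))), 3 ^ n • x = 0 → x = 0) ∧
      (∀ v : HeightOneSpectrum (𝓞 ℚ), MinimalAt (A D) v) ∧
      (TwoPart D ↔ Finite (A D).toAffine.Point ∧
        ∀ x : Pool.Agent.TH841.NF.D.Sha (A D), x + x = 0 → x = 0)) ∧
    (∀ b₁ b₂ : Bool, Tendsto (fun X : ℕ =>
        (num (fun D => (ThreePart D ↔ b₁ = true) ∧ (TwoPart D ↔ b₂ = true)) X : ℝ) /
          (num (fun _ => True) X : ℝ)) atTop
      (𝓝 ((if b₁ = true then c₃ else 1 - c₃) * (if b₂ = true then c₂ else 1 - c₂)))) ∧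
    (0.56 < c₃ ∧ 0.4194 < c₂ ∧ c₂ < 0.4195) ∧
    ∃ (a : ℝ) (X₀ : ℕ), 0 < a ∧ ∀ X : ℕ, X₀ ≤ X →
      a * X * (Real.log X) ^ (-(3 / 4) : ℝ) ≤
        (num (fun D => ThreePart D ∧ TwoPart D) X : ℝ) := by
  have hc3 := Pool.Agent.Y461.CX.t_C3
  have hc2 := Pool.Agent.Y948.CQ.t_C2
  have hlaw : ∀ b₁ b₂ : Bool, Tendsto (fun X : ℕ =>
        (num (fun D => (ThreePart D ↔ b₁ = true) ∧ (TwoPart D ↔ b₂ = true)) X : ℝ) /
          (num (fun _ => True) X : ℝ)) atTop
      (𝓝 ((if b₁ = true then c₃ else 1 - c₃) * (if b₂ = true then c₂ else 1 - c₂))) := by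
    intro b₁ b₂
    have h := Pool.Agent.L0h2.J.law
      (Q := fun D => (ThreePart D ↔ b₁ = true) ∧ (TwoPart D ↔ b₂ = true))
      Pool.Agent.Y698.SG.n4 (b₁, b₂) (by
        intro D h1 h2
        have hD : Class D := (class_iff D).2 ⟨h1, h2⟩
        exact and_congr (ev_iff (three_gd hD)) (ev_iff (two_gd hD)))
    simp only [num_num]
    exact h
  refine ⟨fun D hD => ?_, hlaw, ⟨hc3.2.2.2, hc2.2.2.2.1, hc2.2.2.2.2⟩, ?_⟩
  · obtain ⟨h1, -, -, h4, -⟩ :=
      Pool.Agent.Results.MP_4a9ea6_nt.TwoPartTwistsX49.core (adm hD)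
    exact ⟨(Pool.Agent.Y703.CT.fin_all (cls hD)).1, three_iff hD, h1,
      (Pool.Agent.Results.MP_4a9ea6_nt.TwoPartTwistsX49.two_iff (adm hD)).trans h4.symm⟩
  · have h := hlaw true true
    simp only [num_num] at h ⊢
    have hpos : (0 : ℝ) <
        (if true = true then c₃ else 1 - c₃) * (if true = true then c₂ else 1 - c₂) := by
      rw [if_pos rfl, if_pos rfl]
      exact mul_pos hc3.2.1 hc2.2.1
    have h2 := Pool.Agent.L0h2.J.low_of hpos h
    simpa only [iff_true] using h2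

end Pool.Agent.L0h2.Old.JointLawTwoThreeParts
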